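import Mathlib

/-!
Deterministic partially blind multicounter machines versus deterministic multicounter machines,
both quasi-realtime and with at most `c` reversals.
-/

set_option autoImplicit false

namespace Pool.Agent.Results.MP_24384b_lc.BlindDiffer

/-- A one-way multicounter machine over the alphabet `α`: a finite set `Q` of control states, `k` counters, a start
state, a set of final states and a set of moves.  `move q s z q' adv δ` says that in state `q`,
scanning `s` (`none` when the whole input has been read), when exactly the counters `i` with `z i = true` are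
zero, the machine may enter state `q'`, advance the head iff `adv = true`, and add `δ i ∈ {-1, 0, 1}` to
counter `i`. -/
structure Machine (α : Type) where
  Q : Type
  fin : Finite Q
  k : ℕ
  start : Q
  final : Q → Prop
  move : Q → Option α → (Fin k → Bool) → Q → Bool → (Fin k → SignType) → Prop
  no_adv : ∀ q z q' adv δ, move q none z q' adv δ → adv = false

variable {α : Type}

/-- A configuration: state, unread part of the input, counter values. -/
structure Cfg (M : Machine α) where
  q : M.Q
  inp : List α
  cnt : Fin M.k → ℕ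

/-- The initial configuration on the input `w`. -/
def init (M : Machine α) (w : List α) : Cfg M := ⟨M.start, w, fun _ => 0⟩

/-- One step, changing the counters by `δ`; a step that would make a counter negative is impossible. -/
def Step (M : Machine α) (c : Cfg M) (δ : Fin M.k → SignType) (c' : Cfg M) : Prop :=
  ∃ adv : Bool, M.move c.q c.inp.head? (fun i => decide (c.cnt i = 0)) c'.q adv δ ∧
    c'.inp = (if adv then c.inp.tail else c.inp) ∧
    ∀ i, (c'.cnt i : ℤ) = (c.cnt i : ℤ) + ((δ i : SignType) : ℤ)

/-- A (partial) computation, recorded with the list of its counter changes. -/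
inductive Run (M : Machine α) : Cfg M → List (Fin M.k → SignType) → Cfg M → Prop
  | refl (c : Cfg M) : Run M c [] c
  | step (c c' c'' : Cfg M) (δ : Fin M.k → SignType) (ds : List (Fin M.k → SignType)) :
      Step M c δ c' → Run M c' ds c'' → Run M c (δ :: ds) c''

/-- The number of changes of direction in a list of changes of one counter, when the last direction before it
was `s` (`0` if the counter had not been changed). -/
def turns : SignType → List SignType → ℕ
  | _, [] => 0
  | s, x :: l => if x = 0 then turns s l else (if s ≠ 0 ∧ s ≠ x then 1 else 0) + turns x l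

/-- The number of reversals of a computation: the changes of direction of all counters. -/
def reversals {k : ℕ} (ds : List (Fin k → SignType)) : ℕ := ∑ i, turns 0 (ds.map (fun δ => δ i))

/-- The words accepted by a computation with at most `c` reversals: the whole input is read, a final state is
entered and all counters are zero. -/
def LR (M : Machine α) (c : ℕ) : Set (List α) :=
  {w | ∃ ds c', Run M (init M w) ds c' ∧ c'.inp = [] ∧ M.final c'.q ∧ (∀ i, c'.cnt i = 0) ∧
    reversals ds ≤ c}

/-- Quasi-realtime: some `d` bounds the length of every stretch of a computation during which the head stays on the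
same cell. -/
def QuasiRealtime (M : Machine α) : Prop :=
  ∃ d : ℕ, ∀ w ds₀ c₁ ds c₂, Run M (init M w) ds₀ c₁ → Run M c₁ ds c₂ → c₁.inp = c₂.inp →
    ds.length ≤ d

/-- Partially blind: the moves do not depend on which counters are zero. -/
def PartiallyBlind (M : Machine α) : Prop :=
  ∀ q s z z' q' adv δ, M.move q s z q' adv δ → M.move q s z' q' adv δ

/-- Deterministic: at most one move is possible in every configuration; with `reach = true` this is only
required of the configurations that occur in computations. -/
def Deterministic (reach : Bool) (M : Machine α) : Prop :=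
  ∀ c, (reach = true → ∃ w ds, Run M (init M w) ds c) →
    ∀ δ₁ c₁ δ₂ c₂, Step M c δ₁ c₁ → Step M c δ₂ c₂ → δ₁ = δ₂ ∧ c₁ = c₂

/-- No move once the input has been read. -/
def NoEndMoves (M : Machine α) : Prop := ∀ q z q' adv δ, ¬ M.move q none z q' adv δ

/-- The class of languages `L_{Rc}(M)` of deterministic quasi-realtime multicounter machines `M` over `α`;
partially blind ones if `blind = true`.  The convention `endm = false` forbids moves after the input has been
read, and `reach` is the convention for determinism. -/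
def LangClass (α : Type) (endm reach blind : Bool) (c : ℕ) : Set (Set (List α)) :=
  {L | ∃ M : Machine α, QuasiRealtime M ∧ Deterministic reach M ∧
    (endm = false → NoEndMoves M) ∧ (blind = true → PartiallyBlind M) ∧ L = LR M c}

/-! ### Generalities on runs -/

section
variable {M : Machine α}

lemma Run.append {c c' c'' : Cfg M} {ds ds' : List (Fin M.k → SignType)} (h : Run M c ds c')
    (h' : Run M c' ds' c'') : Run M c (ds ++ ds') c'' := by
  induction h with
  | refl c => exact h'
  | step c c₁ c₂ δ ds hs _ ih => exact Run.step _ _ _ _ _ hs (ih h')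

lemma Run.split {c c'' : Cfg M} : ∀ {ds ds' : List (Fin M.k → SignType)},
    Run M c (ds ++ ds') c'' → ∃ c', Run M c ds c' ∧ Run M c' ds' c'' := by
  intro ds
  induction ds generalizing c with
  | nil => intro ds' h; exact ⟨c, Run.refl c, h⟩
  | cons δ ds ih =>
    intro ds' h
    rw [List.cons_append] at h
    cases h with
    | step _ c₁ _ _ _ hs hr =>
      obtain ⟨c', h1, h2⟩ := ih hr
      exact ⟨c', Run.step _ _ _ _ _ hs h1, h2⟩

lemma Run.cnt {c c' : Cfg M} {ds : List (Fin M.k → SignType)} (h : Run M c ds c') (i : Fin M.k) :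
    (c'.cnt i : ℤ) = (c.cnt i : ℤ) + (ds.map (fun δ => ((δ i : SignType) : ℤ))).sum := by
  induction h with
  | refl c => simp
  | step c c₁ c₂ δ ds hs _ ih =>
    obtain ⟨adv, -, -, h3⟩ := hs
    rw [ih, h3 i, List.map_cons, List.sum_cons]
    ring

lemma Run.inp {c c' : Cfg M} {ds : List (Fin M.k → SignType)} (h : Run M c ds c') :
    c'.inp.length ≤ c.inp.length := by
  induction h with
  | refl c => exact le_rfl
  | step c c₁ c₂ δ ds hs _ ih =>
    obtain ⟨adv, -, h2, -⟩ := hs
    refine ih.trans ?_
    rw [h2]
    split_ifs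
    · rw [List.length_tail]; omega
    · exact le_rfl

lemma sign_abs (s : SignType) : -1 ≤ (s : ℤ) ∧ (s : ℤ) ≤ 1 := by
  cases s <;> simp

lemma sum_bound {k : ℕ} (ds : List (Fin k → SignType)) (i : Fin k) :
    -(ds.length : ℤ) ≤ (ds.map (fun δ => ((δ i : SignType) : ℤ))).sum := by
  induction ds with
  | nil => simp
  | cons δ ds ih =>
    rw [List.map_cons, List.sum_cons, List.length_cons]
    have := (sign_abs (δ i)).1
    push_cast
    linarith

/-- Two computations of a deterministic machine from one configuration: one continues the other. -/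
lemma Run.compare {reach : Bool} (hdet : Deterministic reach M) :
    ∀ (ds₁ ds₂ : List (Fin M.k → SignType)) (c c₁ c₂ : Cfg M),
      (∃ w ds, Run M (init M w) ds c) → Run M c ds₁ c₁ → Run M c ds₂ c₂ →
      (∃ ds', ds₂ = ds₁ ++ ds' ∧ Run M c₁ ds' c₂) ∨ (∃ ds', ds₁ = ds₂ ++ ds' ∧ Run M c₂ ds' c₁) := by
  intro ds₁
  induction ds₁ with
  | nil =>
    intro ds₂ c c₁ c₂ _ h1 h2
    cases h1
    exact Or.inl ⟨ds₂, rfl, h2⟩
  | cons δ ds₁ ih =>
    intro ds₂ c c₁ c₂ hreach h1 h2
    cases h1 with
    | step _ d₁ _ _ _ hs1 hr1 =>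
      cases h2 with
      | refl _ => exact Or.inr ⟨δ :: ds₁, rfl, Run.step _ _ _ _ _ hs1 hr1⟩
      | step _ d₂ _ δ₂ ds₂' hs2 hr2 =>
        obtain ⟨e1, e2⟩ := hdet c (fun _ => hreach) _ _ _ _ hs1 hs2
        subst e1 e2
        obtain ⟨w, ds, hw⟩ := hreach
        have hreach' : ∃ w ds, Run M (init M w) ds d₁ :=
          ⟨w, ds ++ [δ], hw.append (Run.step _ _ _ _ _ hs1 (Run.refl _))⟩
        rcases ih ds₂' d₁ c₁ c₂ hreach' hr1 hr2 with ⟨ds', e, h⟩ | ⟨ds', e, h⟩
        · exact Or.inl ⟨ds', by rw [e]; rfl, h⟩
        · exact Or.inr ⟨ds', by rw [e]; rfl, h⟩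

/-- A partially blind machine can do the same with larger counters. -/
lemma Run.shift (hb : PartiallyBlind M) (d : Fin M.k → ℕ) {c c' : Cfg M}
    {ds : List (Fin M.k → SignType)} (h : Run M c ds c') :
    Run M ⟨c.q, c.inp, c.cnt + d⟩ ds ⟨c'.q, c'.inp, c'.cnt + d⟩ := by
  induction h with
  | refl c => exact Run.refl _
  | step c c₁ c₂ δ ds hs _ ih =>
    obtain ⟨adv, h1, h2, h3⟩ := hs
    refine Run.step _ ⟨c₁.q, c₁.inp, c₁.cnt + d⟩ _ _ _ ⟨adv, hb _ _ _ _ _ _ _ h1, h2, ?_⟩ ih
    intro i
    have := h3 i
    simp only [Pi.add_apply]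
    push_cast
    linarith

/-- The part of a computation that reads the prefix `u`. -/
lemma Run.prefix_split (w : List α) : ∀ (ds : List (Fin M.k → SignType)) (u : List α) (q : M.Q)
    (v : Fin M.k → ℕ) (e : Cfg M), Run M ⟨q, u ++ w, v⟩ ds e → e.inp.length ≤ w.length →
    ∃ ds₁ ds₂ q₁ v₁, ds = ds₁ ++ ds₂ ∧ (∀ w', Run M ⟨q, u ++ w', v⟩ ds₁ ⟨q₁, w', v₁⟩) ∧
      Run M ⟨q₁, w, v₁⟩ ds₂ e := by
  intro ds
  induction ds with
  | nil =>
    intro u q v e h hlen
    cases h
    rw [List.length_append] at hlen
    have hu : u = [] := List.length_eq_zero_iff.mp (by omega)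
    subst hu
    exact ⟨[], [], q, v, rfl, fun w' => Run.refl _, Run.refl _⟩
  | cons δ ds ih =>
    intro u q v e h hlen
    cases u with
    | nil => exact ⟨[], δ :: ds, q, v, rfl, fun w' => Run.refl _, h⟩
    | cons x u =>
      cases h with
      | step _ c₁ _ _ _ hs hr =>
        obtain ⟨adv, h1, h2, h3⟩ := hs
        obtain ⟨q1, inp1, v1⟩ := c₁
        simp only [List.cons_append, List.head?_cons] at h1
        cases adv with
        | false =>
          simp only [Bool.false_eq_true, if_false] at h2
          subst h2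
          obtain ⟨ds₁, ds₂, q₁, v₁, e1, e2, e3⟩ := ih (x :: u) q1 v1 e hr hlen
          refine ⟨δ :: ds₁, ds₂, q₁, v₁, by rw [e1]; rfl, fun w' => ?_, e3⟩
          refine Run.step _ ⟨q1, (x :: u) ++ w', v1⟩ _ _ _ ⟨false, ?_, ?_, h3⟩ (e2 w')
          · simpa only [List.cons_append, List.head?_cons] using h1
          · simp
        | true =>
          simp only [if_true, List.cons_append, List.tail_cons] at h2
          subst h2
          obtain ⟨ds₁, ds₂, q₁, v₁, e1, e2, e3⟩ := ih u q1 v1 e hr hlen
          refine ⟨δ :: ds₁, ds₂, q₁, v₁, by rw [e1]; rfl, fun w' => ?_, e3⟩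
          refine Run.step _ ⟨q1, u ++ w', v1⟩ _ _ _ ⟨true, ?_, ?_, h3⟩ (e2 w')
          · simpa only [List.cons_append, List.head?_cons] using h1
          · simp

end

/-! ### Reversals -/

/-- the last direction -/
def last : SignType → List SignType → SignType
  | s, [] => s
  | s, x :: l => if x = 0 then last s l else last x l

lemma turns_append (s : SignType) (l l' : List SignType) :
    turns s (l ++ l') = turns s l + turns (last s l) l' := by
  induction l generalizing s with
  | nil => simp [turns, last]
  | cons x l ih =>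
    simp only [List.cons_append, turns, last]
    split_ifs with h1
    · exact ih s
    · rw [ih x]; ring
    · rw [ih x]; ring

lemma reversals_append {k : ℕ} (ds ds' : List (Fin k → SignType)) :
    reversals (ds ++ ds') = reversals ds +
      ∑ i, turns (last 0 (ds.map (fun δ => δ i))) (ds'.map (fun δ => δ i)) := by
  unfold reversals
  rw [← Finset.sum_add_distrib]
  refine Finset.sum_congr rfl fun i _ => ?_
  rw [List.map_append, turns_append]

/-! ### The language -/

/-- The words `a^n b^m` with `n ≤ m`; `a` is `false` and `b` is `true`. -/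
def theL : Set (List Bool) :=
  {w | ∃ n m : ℕ, n ≤ m ∧ w = List.replicate n false ++ List.replicate m true}

lemma count_aux (n m : ℕ) :
    (List.replicate n false ++ List.replicate m true).count false = n ∧
    (List.replicate n false ++ List.replicate m true).count true = m := by
  constructor <;> simp [List.count_replicate]

lemma mem_theL (n m : ℕ) :
    List.replicate n false ++ List.replicate m true ∈ theL ↔ n ≤ m := by
  constructor
  · rintro ⟨n', m', h, e⟩
    have h1 := (count_aux n m).1
    have h2 := (count_aux n m).2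
    rw [e] at h1 h2
    rw [(count_aux n' m').1] at h1
    rw [(count_aux n' m').2] at h2
    omega
  · intro h
    exact ⟨n, m, h, rfl⟩

/-! ### Selection of two indices -/

lemma select {S : Type} [Finite S] {k : ℕ} (σ : ℕ → S) (v : ℕ → Fin k → ℕ) (D : ℕ) :
    ∃ n n', n < n' ∧ σ n = σ n' ∧ v n ≤ v n' ∧ (v n = v n' ∨ ∃ i, v n i + D < v n' i) := by
  have h1 : WellQuasiOrdered (fun a b : S => a = b) := Finite.wellQuasiOrdered _
  have h2 : WellQuasiOrdered (fun a b : Fin k → ℕ => a ≤ b) := wellQuasiOrdered_le
  obtain ⟨g₁, hg₁⟩ := h1.exists_monotone_subseq σ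
  obtain ⟨g₂, hg₂⟩ := h2.exists_monotone_subseq (fun n => v (g₁ n))
  set g : ℕ → ℕ := fun n => g₁ (g₂ n) with hg
  have hmono : StrictMono g := fun a b h => g₁.strictMono (g₂.strictMono h)
  have hσ : ∀ m n, m ≤ n → σ (g m) = σ (g n) := fun m n h => hg₁ _ _ (g₂.monotone h)
  have hv : ∀ m n, m ≤ n → v (g m) ≤ v (g n) := fun m n h => hg₂ _ _ h
  by_cases hex : ∃ m n, m < n ∧ v (g m) = v (g n)
  · obtain ⟨m, n, hmn, he⟩ := hex
    exact ⟨g m, g n, hmono hmn, hσ _ _ hmn.le, hv _ _ hmn.le, Or.inl he⟩
  · push Not at hex
    have hsum : ∀ m, m ≤ ∑ i, v (g m) i := by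
      intro m
      induction m with
      | zero => exact Nat.zero_le _
      | succ m ih =>
        have hle := hv m (m + 1) (Nat.le_succ m)
        have hne := hex m (m + 1) (Nat.lt_succ_self m)
        have hlt : ∑ i, v (g m) i < ∑ i, v (g (m + 1)) i := by
          obtain ⟨i, hi⟩ := Function.ne_iff.mp hne
          exact Finset.sum_lt_sum (fun i _ => hle i)
            ⟨i, Finset.mem_univ _, lt_of_le_of_ne (hle i) hi⟩
        omega
    set N := ∑ i, (v (g 0) i + D) + 1 with hN
    refine ⟨g 0, g N, hmono (by omega), hσ _ _ (Nat.zero_le _), hv _ _ (Nat.zero_le _), Or.inr ?_⟩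
    by_contra hcon
    push Not at hcon
    have : ∑ i, v (g N) i ≤ ∑ i, (v (g 0) i + D) := Finset.sum_le_sum fun i _ => hcon i
    have := hsum N
    omega

/-! ### `theL` is not the language of a partially blind machine -/

lemma not_blind {M : Machine Bool} {reach : Bool} {c : ℕ} (hq : QuasiRealtime M)
    (hdet : Deterministic reach M) (hb : PartiallyBlind M) : LR M c ≠ theL := by
  intro hL
  obtain ⟨D, hD⟩ := hq
  have := M.fin
  -- accepting computations on `a^n b^n`, split after `a^n`
  have hsplit : ∀ n : ℕ, ∃ (ds₁ ds₂ : List (Fin M.k → SignType)) (q₁ : M.Q) (v₁ : Fin M.k → ℕ)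
      (e : Cfg M), (∀ w', Run M (init M (List.replicate n false ++ w')) ds₁ ⟨q₁, w', v₁⟩) ∧
      Run M ⟨q₁, List.replicate n true, v₁⟩ ds₂ e ∧ e.inp = [] ∧ M.final e.q ∧ (∀ i, e.cnt i = 0) ∧
      reversals (ds₁ ++ ds₂) ≤ c := by
    intro n
    have hn : List.replicate n false ++ List.replicate n true ∈ LR M c := by
      rw [hL]; exact (mem_theL n n).mpr le_rfl
    obtain ⟨ds, e, h1, h2, h3, h4, h5⟩ := hn
    obtain ⟨ds₁, ds₂, q₁, v₁, e1, e2, e3⟩ :=
      Run.prefix_split (List.replicate n true) ds (List.replicate n false) M.start (fun _ => 0) e h1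
        (by rw [h2]; exact Nat.zero_le _)
    subst e1
    exact ⟨ds₁, ds₂, q₁, v₁, e, e2, e3, h2, h3, h4, h5⟩
  choose ds₁ ds₂ q v e hrun hrest hinp hfin hcnt hrev using hsplit
  have hrev1 : ∀ n, reversals (ds₁ n) ≤ c := fun n => by
    have := hrev n
    rw [reversals_append] at this
    omega
  obtain ⟨n, n', hnn, hσ, hle, hv⟩ := select
    (fun n => (q n, (fun i => last 0 ((ds₁ n).map (fun δ => δ i))),
      (⟨reversals (ds₁ n), Nat.lt_succ_of_le (hrev1 n)⟩ : Fin (c + 1)))) v D
  simp only [Prod.mk.injEq, Fin.mk.injEq] at hσ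
  obtain ⟨hσ1, hσ2, hσ3⟩ := hσ
  rcases hv with hv | ⟨i, hi⟩
  · -- equal counters
    have hacc : List.replicate n' false ++ List.replicate n true ∈ LR M c := by
      refine ⟨ds₁ n' ++ ds₂ n, e n, ?_, hinp n, hfin n, hcnt n, ?_⟩
      · have h1 := hrun n' (List.replicate n true)
        have h2 := hrest n
        rw [hσ1, hv] at h2
        exact h1.append h2
      · have h3 := hrev n
        rw [reversals_append] at h3 ⊢
        rw [← hσ3]
        have h4 : ∀ i, last 0 ((ds₁ n').map (fun δ => δ i)) = last 0 ((ds₁ n).map (fun δ => δ i)) :=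
          fun i => (congrFun hσ2 i).symm
        simp only [h4]
        exact h3
    rw [hL, mem_theL] at hacc
    omega
  · -- different counters
    have hacc : List.replicate n false ++ List.replicate n' true ∈ LR M c := by
      rw [hL]; exact (mem_theL n n').mpr hnn.le
    obtain ⟨ds, f, h1, h2, h3, h4, h5⟩ := hacc
    have hstart : ∃ w ds, Run M (init M w) ds (init M (List.replicate n false ++ List.replicate n' true)) :=
      ⟨_, [], Run.refl _⟩
    -- the rest of this computation
    obtain ⟨rs, hrs⟩ : ∃ rs, Run M ⟨q n, List.replicate n' true, v n⟩ rs f := by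
      rcases Run.compare hdet _ _ _ _ _ hstart (hrun n (List.replicate n' true)) h1 with
        ⟨ds', -, h⟩ | ⟨ds', -, h⟩
      · exact ⟨ds', h⟩
      · have := h.inp
        rw [h2] at this
        simp only [List.length_replicate, List.length_nil] at this
        omega
    set d : Fin M.k → ℕ := v n' - v n with hd
    have hvd : v n + d = v n' := by
      funext j
      simp only [hd, Pi.add_apply, Pi.sub_apply]
      have h' : v n j ≤ v n' j := hle j
      omega
    have hshift := Run.shift hb d hrs
    simp only at hshift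
    rw [hvd, hσ1] at hshift
    have hreach : ∃ w ds, Run M (init M w) ds ⟨q n', List.replicate n' true, v n'⟩ :=
      ⟨_, _, hrun n' (List.replicate n' true)⟩
    have hdi : D < d i := by
      simp only [hd, Pi.sub_apply]
      omega
    rcases Run.compare hdet _ _ _ _ _ hreach hshift (hrest n') with ⟨ds', -, h⟩ | ⟨ds', he, h⟩
    · -- a long stretch on the end cell
      obtain ⟨w, ds0, hw⟩ := hreach
      have hlen := hD w _ _ ds' (e n') (hw.append hshift) h (by rw [hinp n']; exact h2)
      have hc := h.cnt i
      have hs := sum_bound ds' i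
      simp only [Pi.add_apply] at hc
      rw [hcnt n' i, h4 i] at hc
      push_cast at hc
      have : (ds'.length : ℤ) ≤ D := by exact_mod_cast hlen
      omega
    · -- a negative counter
      rw [he] at hrs
      obtain ⟨c', hc1, hc2⟩ := hrs.split
      have hc := hc1.cnt i
      have hc' := (hrest n').cnt i
      simp only at hc hc'
      rw [hcnt n' i] at hc'
      omega

/-! ### `theL` is the language of a deterministic counter machine -/

/-- One counter; state `false` reads the `a`s and increments; on `b` the machine enters (or stays in) state `true` and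
decrements the counter unless it is zero. -/
@[reducible] def theM : Machine Bool where
  Q := Bool
  fin := inferInstance
  k := 1
  start := false
  final := fun _ => True
  move := fun q s z q' adv δ => adv = true ∧
    ((q = false ∧ s = some false ∧ q' = false ∧ δ = fun _ => 1) ∨
      (s = some true ∧ q' = true ∧ δ = fun i => if z i = true then 0 else -1))
  no_adv := by
    intro q z q' adv δ h
    simp at h

lemma theM_step_false (q : Bool) (w : List Bool) (v : Fin 1 → ℕ) (δ : Fin 1 → SignType)
    (c' : Cfg theM) (h : Step theM ⟨q, false :: w, v⟩ δ c') :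
    q = false ∧ c' = ⟨false, w, fun i => v i + 1⟩ ∧ δ = fun _ => 1 := by
  obtain ⟨adv, ⟨hadv, h1⟩, h2, h3⟩ := h
  simp only [List.head?_cons] at h1
  rcases h1 with ⟨e1, -, e3, e4⟩ | ⟨e1, -⟩
  · refine ⟨e1, ?_, e4⟩
    obtain ⟨q', inp', v'⟩ := c'
    simp only at e3 h2 h3
    rw [hadv] at h2
    simp only [if_true, List.tail_cons] at h2
    subst h2 e3
    congr 1
    funext i
    have := h3 i
    rw [e4] at this
    simp only [SignType.coe_one] at this
    omega
  · simp at e1

lemma theM_step_true (q : Bool) (w : List Bool) (v : Fin 1 → ℕ) (δ : Fin 1 → SignType)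
    (c' : Cfg theM) (h : Step theM ⟨q, true :: w, v⟩ δ c') :
    c' = ⟨true, w, fun i => v i - 1⟩ ∧ δ = fun i => if v i = 0 then 0 else -1 := by
  obtain ⟨adv, ⟨hadv, h1⟩, h2, h3⟩ := h
  simp only [List.head?_cons] at h1
  rcases h1 with ⟨-, e2, -⟩ | ⟨-, e2, e3⟩
  · simp at e2
  · simp only [decide_eq_true_eq] at e3
    refine ⟨?_, e3⟩
    obtain ⟨q', inp', v'⟩ := c'
    simp only at e2 h2 h3
    rw [hadv] at h2
    simp only [if_true, List.tail_cons] at h2
    subst h2 e2
    congr 1
    funext i
    have h3' := h3 i
    rw [e3] at h3'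
    by_cases hz : v i = 0
    · simp only [hz, if_true, SignType.coe_zero] at h3'
      omega
    · simp only [hz, if_false, SignType.coe_neg_one] at h3'
      omega

lemma theM_step_nil (q : Bool) (v : Fin 1 → ℕ) (δ : Fin 1 → SignType)
    (c' : Cfg theM) (h : Step theM ⟨q, [], v⟩ δ c') : False := by
  obtain ⟨adv, ⟨hadv, h1⟩, h2, h3⟩ := h
  simp at h1

lemma theM_length {c c' : Cfg theM} {ds : List (Fin 1 → SignType)} (h : Run theM c ds c') :
    ds.length + c'.inp.length = c.inp.length := by
  induction h with
  | refl c => simp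
  | step c c₁ c₂ δ ds hs _ ih =>
    obtain ⟨adv, ⟨hadv, h1⟩, h2, h3⟩ := hs
    rw [hadv] at h2
    simp only [if_true] at h2
    have : c.inp ≠ [] := by
      intro h0
      rw [h0] at h1
      simp at h1
    have h5 : c.inp.length ≠ 0 := fun h => this (List.length_eq_zero_iff.mp h)
    rw [List.length_cons]
    rw [h2, List.length_tail] at ih
    omega

lemma theM_true_run (w : List Bool) : ∀ (v : Fin 1 → ℕ) (ds : List (Fin 1 → SignType)) (c' : Cfg theM),
    Run theM ⟨true, w, v⟩ ds c' → c'.inp = [] → c'.cnt 0 = 0 →
    ∃ m, w = List.replicate m true ∧ v 0 ≤ m := by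
  induction w with
  | nil =>
    intro v ds c' h h1 h2
    cases h with
    | refl _ => exact ⟨0, rfl, h2.le⟩
    | step _ c₁ _ δ ds hs _ => exact (theM_step_nil _ _ _ _ hs).elim
  | cons x w ih =>
    intro v ds c' h h1 h2
    cases h with
    | refl _ => simp at h1
    | step _ c₁ _ δ ds hs hr =>
      cases x with
      | false => have := (theM_step_false _ _ _ _ _ hs).1; simp at this
      | true =>
        obtain ⟨e1, -⟩ := theM_step_true _ _ _ _ _ hs
        subst e1
        obtain ⟨m, e2, e3⟩ := ih _ _ _ hr h1 h2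
        exact ⟨m + 1, by rw [e2]; rfl, by omega⟩

lemma theM_false_run (w : List Bool) : ∀ (v : Fin 1 → ℕ) (ds : List (Fin 1 → SignType)) (c' : Cfg theM),
    Run theM ⟨false, w, v⟩ ds c' → c'.inp = [] → c'.cnt 0 = 0 →
    ∃ n m, w = List.replicate n false ++ List.replicate m true ∧ v 0 + n ≤ m := by
  induction w with
  | nil =>
    intro v ds c' h h1 h2
    cases h with
    | refl _ => exact ⟨0, 0, rfl, by simp only at h2; omega⟩
    | step _ c₁ _ δ ds hs _ => exact (theM_step_nil _ _ _ _ hs).elim
  | cons x w ih =>
    intro v ds c' h h1 h2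
    cases h with
    | refl _ => simp at h1
    | step _ c₁ _ δ ds hs hr =>
      cases x with
      | false =>
        obtain ⟨-, e1, -⟩ := theM_step_false _ _ _ _ _ hs
        subst e1
        obtain ⟨n, m, e2, e3⟩ := ih _ _ _ hr h1 h2
        exact ⟨n + 1, m, by rw [e2]; rfl, by omega⟩
      | true =>
        obtain ⟨e1, -⟩ := theM_step_true _ _ _ _ _ hs
        subst e1
        obtain ⟨m, e2, e3⟩ := theM_true_run w _ _ _ hr h1 h2
        exact ⟨0, m + 1, by rw [e2]; rfl, by omega⟩

lemma turns_nonpos (l : List SignType) : ∀ s : SignType, (∀ x ∈ l, x ≠ 1) →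
    turns s l ≤ 1 ∧ (s ≠ 1 → turns s l = 0) := by
  induction l with
  | nil => intro s _; simp [turns]
  | cons x l ih =>
    intro s h
    have hx : x ≠ 1 := h x (by simp)
    have ih' := ih x (fun y hy => h y (by simp [hy]))
    have ihs := ih s (fun y hy => h y (by simp [hy]))
    simp only [turns]
    split_ifs with h1 h2
    · exact ihs
    · have := ih'.2 hx
      refine ⟨by omega, fun hs => ?_⟩
      exfalso
      revert hx h1 h2 hs
      cases s <;> cases x <;> simp
    · have := ih'.2 hx
      exact ⟨by omega, fun _ => by omega⟩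

lemma turns_ones (l : List SignType) (h : ∀ x ∈ l, x ≠ 1) (n : ℕ) : ∀ s : SignType, s ≠ -1 →
    turns s (List.replicate n 1 ++ l) ≤ 1 := by
  induction n with
  | zero => intro s _; simpa using (turns_nonpos l s h).1
  | succ n ih =>
    intro s hs
    rw [List.replicate_succ, List.cons_append]
    simp only [turns]
    rw [if_neg (by decide), if_neg]
    · have := ih 1 (by decide)
      omega
    · revert hs
      cases s <;> simp

lemma theM_true_exists (m : ℕ) : ∀ v : Fin 1 → ℕ, v 0 ≤ m →
    ∃ ds : List (Fin 1 → SignType), Run theM ⟨true, List.replicate m true, v⟩ ds ⟨true, [], fun _ => 0⟩ ∧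
      ∀ x ∈ ds.map (fun δ => δ 0), x ≠ 1 := by
  induction m with
  | zero =>
    intro v hv
    have : v = fun _ => 0 := by
      funext i
      rw [Subsingleton.elim i 0]
      omega
    subst this
    exact ⟨[], Run.refl _, by simp⟩
  | succ m ih =>
    intro v hv
    obtain ⟨ds, h1, h2⟩ := ih (fun i => v i - 1) (by omega)
    refine ⟨(fun i => if v i = 0 then 0 else -1) :: ds, Run.step _ _ _ _ _ ?_ h1, ?_⟩
    · refine ⟨true, ⟨rfl, Or.inr ⟨rfl, rfl, ?_⟩⟩, rfl, ?_⟩
      · funext i; simp
      · intro i
        simp only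
        by_cases hz : v i = 0
        · simp [hz]
        · simp only [hz, if_false, SignType.coe_neg_one]
          omega
    · intro x hx
      rw [List.map_cons, List.mem_cons] at hx
      rcases hx with hx | hx
      · subst hx
        by_cases hz : v 0 = 0 <;> simp [hz]
      · exact h2 x hx

lemma theM_false_exists (n m : ℕ) : ∀ v : Fin 1 → ℕ, v 0 + n ≤ m →
    ∃ (ds : List (Fin 1 → SignType)) (c' : Cfg theM), Run theM ⟨false, List.replicate n false ++
      List.replicate m true, v⟩ (List.replicate n (fun _ => 1) ++ ds) c' ∧ c'.inp = [] ∧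
      (∀ i, c'.cnt i = 0) ∧ ∀ x ∈ ds.map (fun δ => δ 0), x ≠ 1 := by
  induction n with
  | zero =>
    intro v hv
    cases m with
    | zero =>
      refine ⟨[], ⟨false, [], v⟩, Run.refl _, rfl, ?_, by simp⟩
      intro i
      simp only
      rw [Subsingleton.elim i 0]
      omega
    | succ m =>
      obtain ⟨ds, h1, h2⟩ := theM_true_exists m (fun i => v i - 1) (by omega)
      refine ⟨(fun i => if v i = 0 then 0 else -1) :: ds, _, Run.step _ _ _ _ _ ?_ h1, rfl,
        fun _ => rfl, ?_⟩
      · refine ⟨true, ⟨rfl, Or.inr ⟨rfl, rfl, ?_⟩⟩, rfl, ?_⟩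
        · funext i; simp
        · intro i
          simp only
          by_cases hz : v i = 0
          · simp [hz]
          · simp only [hz, if_false, SignType.coe_neg_one]
            omega
      · intro x hx
        rw [List.map_cons, List.mem_cons] at hx
        rcases hx with hx | hx
        · subst hx
          by_cases hz : v 0 = 0 <;> simp [hz]
        · exact h2 x hx
  | succ n ih =>
    intro v hv
    obtain ⟨ds, c', h1, h2, h3, h4⟩ := ih (fun i => v i + 1) (by omega)
    refine ⟨ds, c', Run.step _ _ _ _ _ ?_ h1, h2, h3, h4⟩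
    refine ⟨true, ⟨rfl, Or.inl ⟨rfl, rfl, rfl, rfl⟩⟩, rfl, ?_⟩
    intro i
    simp

lemma theM_lang (c : ℕ) (hc : 1 ≤ c) : LR theM c = theL := by
  ext w
  constructor
  · rintro ⟨ds, c', h1, h2, -, h4, -⟩
    obtain ⟨n, m, e, h⟩ := theM_false_run w _ ds c' h1 h2 (h4 0)
    exact ⟨n, m, by simpa using h, e⟩
  · rintro ⟨n, m, h, rfl⟩
    obtain ⟨ds, c', h1, h2, h3, h4⟩ := theM_false_exists n m (fun _ => 0) (by simpa using h)
    refine ⟨_, c', h1, h2, trivial, h3, ?_⟩
    refine le_trans ?_ hc
    unfold reversals
    have : (Finset.univ : Finset (Fin theM.k)) = {0} := rfl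
    rw [this, Finset.sum_singleton, List.map_append, List.map_replicate]
    exact turns_ones _ h4 n 0 (by decide)

lemma theM_class (endm reach : Bool) (c : ℕ) (hc : 1 ≤ c) :
    theL ∈ LangClass Bool endm reach false c := by
  refine ⟨theM, ⟨0, ?_⟩, ?_, ?_, by simp, (theM_lang c hc).symm⟩
  · intro w ds₀ c₁ ds c₂ _ h he
    have := theM_length h
    rw [he] at this
    omega
  · rintro ⟨q, inp, v⟩ _ δ₁ c₁ δ₂ c₂ h1 h2
    cases inp with
    | nil => exact (theM_step_nil _ _ _ _ h1).elim
    | cons x w =>
      cases x with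
      | false =>
        obtain ⟨-, e1, e2⟩ := theM_step_false _ _ _ _ _ h1
        obtain ⟨-, e3, e4⟩ := theM_step_false _ _ _ _ _ h2
        exact ⟨e2.trans e4.symm, e1.trans e3.symm⟩
      | true =>
        obtain ⟨e1, e2⟩ := theM_step_true _ _ _ _ _ h1
        obtain ⟨e3, e4⟩ := theM_step_true _ _ _ _ _ h2
        exact ⟨e2.trans e4.symm, e1.trans e3.symm⟩
  · intro _ q z q' adv δ h
    obtain ⟨_, ⟨_, h, _⟩ | ⟨h, _⟩⟩ := h
    · simp at h
    · simp at h

/-- For every `c ≥ 1` the language `{a^n b^m : n ≤ m}` belongs to `L_{Rc}(QR-DCOUNTER)` and not to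
`L_{Rc}(QR-DPBLIND)`, whatever the conventions on moves after the input and on determinism; in particular the two
classes differ. -/
theorem result (endm reach : Bool) (c : ℕ) (hc : 1 ≤ c) :
    theL ∈ LangClass Bool endm reach false c ∧ theL ∉ LangClass Bool endm reach true c ∧
      LangClass Bool endm reach true c ≠ LangClass Bool endm reach false c := by
  have h1 := theM_class endm reach c hc
  have h2 : theL ∉ LangClass Bool endm reach true c := by
    rintro ⟨M, hq, hd, -, hb, hL⟩
    exact not_blind hq hd (hb rfl) hL.symm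
  exact ⟨h1, h2, fun h => h2 (h ▸ h1)⟩

end Pool.Agent.Results.MP_24384b_lc.BlindDiffer
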